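import Pool.Agent.U464.GD.Lin

/-!
# Primes and almost primes in ALL progressions, with restricted quotients, in short windows

Let `D` be given. There are `δ > 0` and `r₀` such that for `r ≥ r₀` and every base `b` the following holds for `x = b ^ K`
with `K` large, for ALL moduli `q ≥ 1` and ALL `a` prime to `q`, up to the power `x ^ D`. Consider the `n ≡ a` modulo `q`
for which the quotient `m = (n - a) / q` lies in a window `[x t, x (t + 1))` below `x ^ D / q` and has restricted last
digits: the `i`-th digit of `m` in base `b` belongs to `A i`, `i < K`, where the sets `A i` are arbitrary, only the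
number `P = ∏ |A i|` of these `m` is at least `exp (- δ K) x`. Uniformly in `q`, `a`, `t` and the sets `A i`

* the number of these `n = q m + a` without prime factors up to `x ^ (1 / r)` is at most a constant times
  `P (q / φ(q)) / K`; this includes all primes `n > x ^ (1 / r)`;
* if there is no obstruction by the last digit, then at least a constant times as many of these `n` moreover have at
  most `r` prime factors.

This is the frequency which is expected for the primes `n ≡ a` modulo `q`. For `N = x ^ D` the moduli are allowed to be as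
large as `N ^ (1 - 1 / D) / 2`, and the windows have only `x = N ^ (1 / D)` terms of the progression. Proof: the sieve for
polynomial values at integers with restricted digits, uniformly in the polynomial (`Pool/Agent/U464/PD/Win.lean`, from
the starting library), for the polynomials `q X + a` (`Pool/Agent/U464/GD/Lin.lean`).
-/

set_option autoImplicit false

namespace Pool.Agent.Results.MP_c5bf7b_nt.RestrictedQuotients

open Finset Filter

/-- The quotients `m` in `[b ^ K t, b ^ K (t + 1))` whose `i`-th digit in base `b` (the digit of the units for `i = 0`)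
belongs to `A i` for all `i < K`, such that all prime factors of `n = q m + a` are larger than `b ^ (K / r)`. -/
def Rough (q a b K t r : ℕ) (A : ℕ → Finset ℕ) : Set ℕ :=
  {m | b ^ K * t ≤ m ∧ m < b ^ K * (t + 1) ∧ (∀ i < K, m / b ^ i % b ∈ A i) ∧
    ∀ l : ℕ, l.Prime → l ∣ q * m + a → b ^ K < l ^ r}

/-- The elements `m` of `Rough` for which `q m + a` has at most `r` prime factors, counted with multiplicity. -/
def AlmostPrime (q a b K t r : ℕ) (A : ℕ → Finset ℕ) : Set ℕ :=
  {m | m ∈ Rough q a b K t r A ∧ (q * m + a).primeFactorsList.length ≤ r}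

/-- **Primes and almost primes in all progressions, with restricted quotients.** -/
theorem result (D : ℕ) :
    ∃ δ : ℝ, 0 < δ ∧ ∃ r₀ : ℕ, 2 ≤ r₀ ∧ ∀ r : ℕ, r₀ ≤ r → ∀ b : ℕ, 2 ≤ b → ∃ κ C : ℝ, 0 < κ ∧ 0 < C ∧
      ∀ᶠ K : ℕ in atTop, ∀ q a t : ℕ, 0 < q → q.Coprime a → q * (b ^ K * (t + 1)) + a ≤ b ^ (D * K) →
        ∀ A : ℕ → Finset ℕ, (∀ i < K, A i ⊆ range b) →
          (b : ℝ) ^ K ≤ Real.exp (δ * K) * ∏ i ∈ range K, ((A i).card : ℝ) →
          ((∃ d ∈ A 0, (q * d + a).Coprime b) →
            κ * (∏ i ∈ range K, ((A i).card : ℝ)) * ((q : ℝ) / q.totient / K) ≤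
              ((AlmostPrime q a b K t r A).ncard : ℝ)) ∧
          ((Rough q a b K t r A).ncard : ℝ) ≤
            C * (∏ i ∈ range K, ((A i).card : ℝ)) * ((q : ℝ) / q.totient / K) :=
  Pool.Agent.U464.GD.lin D

end Pool.Agent.Results.MP_c5bf7b_nt.RestrictedQuotients
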